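import Mathlib.NumberTheory.Zsqrtd.GaussianInt
import Mathlib.Analysis.SpecialFunctions.Trigonometric.Arctan
import Mathlib.Analysis.SpecialFunctions.Trigonometric.Deriv
import Mathlib.MeasureTheory.Measure.Lebesgue.Basic
import Mathlib.MeasureTheory.Integral.IntegrableOn
import Mathlib.Analysis.Calculus.ContDiff.Basic
import Mathlib.Tactic

/-!
# Embedded eigenvalues of open quantum graphs with irrational edge lengths

A loopless open quantum graph (two vertices joined by five edges, with one lead) and edge lengths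
that are linearly independent over `ℤ`, for which the Kirchhoff Laplacian has the embedded
eigenvalue `1`.
-/

open MeasureTheory Set
open scoped ComplexConjugate

namespace Pool.Agent.Results.MP_332ffb_mp.EmbeddedEigenvalue

/-- A finite graph (multiple edges allowed) with finitely many leads attached:
`lead v` is the number of half-lines attached to the vertex `v`. -/
structure OpenGraph where
  /-- vertices -/
  V : Type
  /-- edges -/
  E : Type
  fV : Fintype V
  dV : DecidableEq V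
  fE : Fintype E
  /-- initial vertex of an edge -/
  src : E → V
  /-- final vertex of an edge -/
  tgt : E → V
  /-- number of leads attached to a vertex -/
  lead : V → ℕ

attribute [instance] OpenGraph.fV OpenGraph.dV OpenGraph.fE

namespace OpenGraph

variable (G : OpenGraph)

/-- The graph is connected. -/
def Connected : Prop :=
  Nonempty G.V ∧ ∀ v w, Relation.EqvGen (fun a b => ∃ e, G.src e = a ∧ G.tgt e = b) v w

/-- No edge is a loop. -/
def Loopless : Prop := ∀ e, G.src e ≠ G.tgt e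

/-- The degree of a vertex, leads included (a loop counts twice). -/
def degree (v : G.V) : ℕ :=
  (∑ e, ((if G.src e = v then 1 else 0) + (if G.tgt e = v then 1 else 0))) + G.lead v

/-- The class of graphs of the problem: connected, at least one lead, no vertex of degree two. -/
def Admissible : Prop := G.Connected ∧ (∃ v, 0 < G.lead v) ∧ ∀ v, G.degree v ≠ 2

/-- `lam` is an eigenvalue of the Kirchhoff Laplacian of the metric graph with edge lengths `l`:
there is a nonzero square integrable `u`, given by functions `u e` on the edges `[0, l e]`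
(from `src e` to `tgt e`) and `f v j` on the leads `[0, ∞)`, with `-u'' = lam u` everywhere,
continuous at the vertices (with values `φ`), with zero sum of outgoing derivatives at every
vertex. (The functions are the restrictions of twice continuously differentiable functions on
`ℝ`, as every solution of `-u'' = lam u` on an interval is.) -/
def IsEigenvalue (l : G.E → ℝ) (lam : ℝ) : Prop :=
  ∃ (u : G.E → ℝ → ℂ) (f : (v : G.V) → Fin (G.lead v) → ℝ → ℂ) (φ : G.V → ℂ),
    (∀ e, ContDiff ℝ 2 (u e)) ∧ (∀ v j, ContDiff ℝ 2 (f v j)) ∧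
    (∀ e, ∀ x ∈ Icc 0 (l e), -deriv (deriv (u e)) x = lam * u e x) ∧
    (∀ v j, ∀ x ∈ Ici (0 : ℝ), -deriv (deriv (f v j)) x = lam * f v j x) ∧
    (∀ v j, IntegrableOn (fun x => ‖f v j x‖ ^ 2) (Ici (0 : ℝ))) ∧
    (∀ e, u e 0 = φ (G.src e) ∧ u e (l e) = φ (G.tgt e)) ∧
    (∀ v j, f v j 0 = φ v) ∧
    (∀ v, (∑ e, ((if G.src e = v then deriv (u e) 0 else 0)
        - (if G.tgt e = v then deriv (u e) (l e) else 0))) + ∑ j, deriv (f v j) 0 = 0) ∧
    ((∃ e, ∃ x ∈ Icc 0 (l e), u e x ≠ 0) ∨ ∃ v j, ∃ x ∈ Ici (0 : ℝ), f v j x ≠ 0)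

end OpenGraph

/-! ### the example -/

/-- The half-angle tangents of the edge lengths, times seven. -/
def X : Fin 5 → ℤ := ![5, 8, 30, -3, -40]

/-- Half-angle tangent. -/
noncomputable def T (i : Fin 5) : ℝ := (X i : ℝ) / 7

/-- The five edge lengths: `2 arctan t` or `2 arctan t + 2π`. -/
noncomputable def L (i : Fin 5) : ℝ :=
  2 * Real.arctan (T i) + (if X i < 0 then 2 * Real.pi else 0)

/-- Two vertices joined by five edges, one lead at the first vertex. -/
def G5 : OpenGraph where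
  V := Fin 2
  E := Fin 5
  fV := inferInstance
  dV := inferInstance
  fE := inferInstance
  src := fun _ => 0
  tgt := fun _ => 1
  lead := ![1, 0]

lemma X_ne (i : Fin 5) : X i ≠ 0 := by fin_cases i <;> decide

lemma T_ne (i : Fin 5) : T i ≠ 0 := by
  unfold T
  have := X_ne i
  positivity

lemma L_pos (i : Fin 5) : 0 < L i := by
  unfold L
  split_ifs with h
  · have := Real.neg_pi_div_two_lt_arctan (T i)
    have := Real.pi_pos
    linarith
  · have h1 : 0 < T i := by
      have h2 : 0 < X i := lt_of_le_of_ne (not_lt.1 h) (X_ne i).symm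
      unfold T
      have : (0 : ℝ) < X i := by exact_mod_cast h2
      positivity
    have := Real.arctan_pos.2 h1
    linarith

lemma sin_L (i : Fin 5) : Real.sin (L i) = 2 * T i / (1 + T i ^ 2) := by
  have h : Real.sin (L i) = Real.sin (2 * Real.arctan (T i)) := by
    unfold L; split_ifs <;> simp
  have h1 : (0 : ℝ) < 1 + T i ^ 2 := by positivity
  rw [h, Real.sin_two_mul, Real.sin_arctan, Real.cos_arctan]
  have hs : √(1 + T i ^ 2) ≠ 0 := (Real.sqrt_pos.2 h1).ne'
  field_simp
  rw [Real.sq_sqrt h1.le]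

lemma cos_L (i : Fin 5) : Real.cos (L i) = (1 - T i ^ 2) / (1 + T i ^ 2) := by
  have h : Real.cos (L i) = Real.cos (2 * Real.arctan (T i)) := by
    unfold L; split_ifs <;> simp
  have h1 : (0 : ℝ) < 1 + T i ^ 2 := by positivity
  rw [h, Real.cos_two_mul, Real.cos_arctan]
  have hs : √(1 + T i ^ 2) ≠ 0 := (Real.sqrt_pos.2 h1).ne'
  field_simp
  rw [Real.sq_sqrt h1.le]
  ring

/-! ### irrationality of the lengths -/

/-- The Gaussian integers `7 + x i`. -/
def Z (i : Fin 5) : GaussianInt := ⟨7, X i⟩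

lemma exp_L (i : Fin 5) : Complex.exp (Complex.I * L i) * ((star (Z i) : GaussianInt) : ℂ) =
    ((Z i : GaussianInt) : ℂ) := by
  rw [mul_comm Complex.I, Complex.exp_mul_I, ← Complex.ofReal_cos, ← Complex.ofReal_sin,
    sin_L, cos_L]
  have e1 : ((Z i : GaussianInt) : ℂ) = 7 * (1 + T i * Complex.I) := by
    rw [Z, GaussianInt.toComplex_def', T]; push_cast; ring
  have e2 : ((star (Z i) : GaussianInt) : ℂ) = 7 * (1 - T i * Complex.I) := by
    rw [GaussianInt.toComplex_star, e1]
    simp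
    rw [show (starRingEnd ℂ) 7 = 7 from Complex.conj_ofNat 7]
    ring
  rw [e1, e2]
  have h1 : (1 + (T i : ℂ) ^ 2) ≠ 0 := by
    have : (0 : ℝ) < 1 + T i ^ 2 := by positivity
    exact_mod_cast this.ne'
  push_cast
  field_simp
  linear_combination (-2 * (T i : ℂ) ^ 2) * Complex.I_sq

lemma Z_ne (i : Fin 5) : ((Z i : GaussianInt) : ℂ) ≠ 0 := by
  rw [Ne, GaussianInt.toComplex_eq_zero, Zsqrtd.ext_iff]
  simp [Z]

lemma Zs_ne (i : Fin 5) : ((star (Z i) : GaussianInt) : ℂ) ≠ 0 := by
  rw [Ne, GaussianInt.toComplex_eq_zero, Zsqrtd.ext_iff]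
  simp [Z]

lemma gauss_relation (g : Fin 5 → ℤ) (h : ∑ i, g i • L i = 0) :
    ∏ i, (Z i ^ (g i).toNat * star (Z i) ^ (-g i).toNat) =
      ∏ i, (star (Z i) ^ (g i).toNat * Z i ^ (-g i).toNat) := by
  apply GaussianInt.toComplex_injective
  rw [map_prod, map_prod]
  have h1 : ∏ i, (((Z i : GaussianInt) : ℂ) / ((star (Z i) : GaussianInt) : ℂ)) ^ (g i) = 1 := by
    have h2 : ∏ i, Complex.exp (Complex.I * L i) ^ (g i) = 1 := by
      simp_rw [← Complex.exp_int_mul]
      rw [← Complex.exp_sum]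
      have h3 : ∑ i, (g i : ℂ) * (Complex.I * L i) = Complex.I * ((∑ i, g i • L i : ℝ) : ℂ) := by
        push_cast
        rw [Finset.mul_sum]
        refine Finset.sum_congr rfl fun i _ => ?_
        simp
        ring
      rw [h3, h]
      simp
    rw [← h2]
    refine Finset.prod_congr rfl fun i _ => ?_
    rw [← exp_L i, mul_div_assoc, div_self (Zs_ne i), mul_one]
  have h4 : ∀ i, (((Z i : GaussianInt) : ℂ) ^ (g i).toNat *
      ((star (Z i) : GaussianInt) : ℂ) ^ (-g i).toNat) =
      (((Z i : GaussianInt) : ℂ) / ((star (Z i) : GaussianInt) : ℂ)) ^ (g i) *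
      (((star (Z i) : GaussianInt) : ℂ) ^ (g i).toNat *
      ((Z i : GaussianInt) : ℂ) ^ (-g i).toNat) := by
    intro i
    have ha := Z_ne i
    have hb := Zs_ne i
    generalize ((Z i : GaussianInt) : ℂ) = a at ha
    generalize ((star (Z i) : GaussianInt) : ℂ) = b at hb
    rcases le_total 0 (g i) with hg | hg
    · obtain ⟨m, hm⟩ := Int.eq_ofNat_of_zero_le hg
      rw [hm]
      simp
      rw [div_pow]
      field_simp
    · obtain ⟨m, hm⟩ := Int.eq_ofNat_of_zero_le (neg_nonneg.2 hg)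
      have hm' : g i = -(m : ℤ) := by linarith
      rw [hm']
      simp
      rw [div_pow]
      field_simp
  simp only [map_mul, map_pow]
  rw [Finset.prod_congr rfl fun i _ => h4 i, Finset.prod_mul_distrib, h1, one_mul]

lemma key (g : Fin 5 → ℤ) (h : ∏ i, (Z i ^ (g i).toNat * star (Z i) ^ (-g i).toNat) =
      ∏ i, (star (Z i) ^ (g i).toNat * Z i ^ (-g i).toNat)) (p : ℕ) [Fact p.Prime]
    (φ : GaussianInt →+* ZMod p) (j : Fin 5) (h0 : φ (Z j) = 0)
    (h1 : ∀ i, i ≠ j → φ (Z i) ≠ 0) (h2 : ∀ i, φ (star (Z i)) ≠ 0) : g j = 0 := by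
  by_contra hg
  have h3 := congrArg φ h
  rw [map_prod, map_prod] at h3
  simp only [map_mul, map_pow] at h3
  rcases lt_or_gt_of_ne hg with hg | hg
  · have hr : ∏ i, (φ (star (Z i)) ^ (g i).toNat * φ (Z i) ^ (-g i).toNat) = 0 := by
      apply Finset.prod_eq_zero (Finset.mem_univ j)
      rw [h0, zero_pow, mul_zero]
      omega
    have hl : ∏ i, (φ (Z i) ^ (g i).toNat * φ (star (Z i)) ^ (-g i).toNat) ≠ 0 := by
      rw [Finset.prod_ne_zero_iff]
      intro i _
      refine mul_ne_zero ?_ (pow_ne_zero _ (h2 i))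
      by_cases hij : i = j
      · subst hij
        have : (g i).toNat = 0 := by omega
        rw [this]; simp
      · exact pow_ne_zero _ (h1 i hij)
    exact hl (h3.trans hr)
  · have hl : ∏ i, (φ (Z i) ^ (g i).toNat * φ (star (Z i)) ^ (-g i).toNat) = 0 := by
      apply Finset.prod_eq_zero (Finset.mem_univ j)
      rw [h0, zero_pow, zero_mul]
      omega
    have hr : ∏ i, (φ (star (Z i)) ^ (g i).toNat * φ (Z i) ^ (-g i).toNat) ≠ 0 := by
      rw [Finset.prod_ne_zero_iff]
      intro i _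
      refine mul_ne_zero (pow_ne_zero _ (h2 i)) ?_
      by_cases hij : i = j
      · subst hij
        have : (-g i).toNat = 0 := by omega
        rw [this]; simp
      · exact pow_ne_zero _ (h1 i hij)
    exact hr (h3.symm.trans hl)

/-- Reduction of the Gaussian integers modulo a prime, sending `i` to a square root of `-1`. -/
def red (p : ℕ) (r : ZMod p) (hr : r * r = ((-1 : ℤ) : ZMod p)) : GaussianInt →+* ZMod p :=
  Zsqrtd.lift ⟨r, hr⟩

lemma red_Z (p : ℕ) (r : ZMod p) (hr : r * r = ((-1 : ℤ) : ZMod p)) (i : Fin 5) :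
    red p r hr (Z i) = 7 + (X i : ZMod p) * r := by
  simp [red, Z]

lemma red_Zs (p : ℕ) (r : ZMod p) (hr : r * r = ((-1 : ℤ) : ZMod p)) (i : Fin 5) :
    red p r hr (star (Z i)) = 7 - (X i : ZMod p) * r := by
  simp [red, Z]
  ring

lemma sq37 : (6 : ZMod 37) * 6 = ((-1 : ℤ) : ZMod 37) := by decide

lemma zero37 : 7 + (X 0 : ZMod 37) * 6 = 0 := by decide

lemma ne37 : ∀ i : Fin 5, i ≠ 0 → 7 + (X i : ZMod 37) * 6 ≠ 0 := by decide

lemma ne'37 : ∀ i : Fin 5, 7 - (X i : ZMod 37) * 6 ≠ 0 := by decide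

lemma sq113 : (98 : ZMod 113) * 98 = ((-1 : ℤ) : ZMod 113) := by decide

lemma zero113 : 7 + (X 1 : ZMod 113) * 98 = 0 := by decide

lemma ne113 : ∀ i : Fin 5, i ≠ 1 → 7 + (X i : ZMod 113) * 98 ≠ 0 := by decide

lemma ne'113 : ∀ i : Fin 5, 7 - (X i : ZMod 113) * 98 ≠ 0 := by decide

lemma sq73 : (46 : ZMod 73) * 46 = ((-1 : ℤ) : ZMod 73) := by decide

lemma zero73 : 7 + (X 2 : ZMod 73) * 46 = 0 := by decide

lemma ne73 : ∀ i : Fin 5, i ≠ 2 → 7 + (X i : ZMod 73) * 46 ≠ 0 := by decide

lemma ne'73 : ∀ i : Fin 5, 7 - (X i : ZMod 73) * 46 ≠ 0 := by decide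

lemma sq29 : (12 : ZMod 29) * 12 = ((-1 : ℤ) : ZMod 29) := by decide

lemma zero29 : 7 + (X 3 : ZMod 29) * 12 = 0 := by decide

lemma ne29 : ∀ i : Fin 5, i ≠ 3 → 7 + (X i : ZMod 29) * 12 ≠ 0 := by decide

lemma ne'29 : ∀ i : Fin 5, 7 - (X i : ZMod 29) * 12 ≠ 0 := by decide

lemma sq97 : (22 : ZMod 97) * 22 = ((-1 : ℤ) : ZMod 97) := by decide

lemma zero97 : 7 + (X 4 : ZMod 97) * 22 = 0 := by decide

lemma ne97 : ∀ i : Fin 5, i ≠ 4 → 7 + (X i : ZMod 97) * 22 ≠ 0 := by decide

lemma ne'97 : ∀ i : Fin 5, 7 - (X i : ZMod 97) * 22 ≠ 0 := by decide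

lemma L_linearIndependent : LinearIndependent ℤ L := by
  rw [Fintype.linearIndependent_iff]
  intro g hg
  have h := gauss_relation g hg
  have a0 : Fact (Nat.Prime 37) := ⟨by norm_num⟩
  have r0 := key g h 37 (red 37 6 sq37) 0 ((red_Z _ _ _ _).trans zero37)
    (fun i hi => by rw [red_Z]; exact ne37 i hi) (fun i => by rw [red_Zs]; exact ne'37 i)
  have a1 : Fact (Nat.Prime 113) := ⟨by norm_num⟩
  have r1 := key g h 113 (red 113 98 sq113) 1 ((red_Z _ _ _ _).trans zero113)
    (fun i hi => by rw [red_Z]; exact ne113 i hi) (fun i => by rw [red_Zs]; exact ne'113 i)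
  have a2 : Fact (Nat.Prime 73) := ⟨by norm_num⟩
  have r2 := key g h 73 (red 73 46 sq73) 2 ((red_Z _ _ _ _).trans zero73)
    (fun i hi => by rw [red_Z]; exact ne73 i hi) (fun i => by rw [red_Zs]; exact ne'73 i)
  have a3 : Fact (Nat.Prime 29) := ⟨by norm_num⟩
  have r3 := key g h 29 (red 29 12 sq29) 3 ((red_Z _ _ _ _).trans zero29)
    (fun i hi => by rw [red_Z]; exact ne29 i hi) (fun i => by rw [red_Zs]; exact ne'29 i)
  have a4 : Fact (Nat.Prime 97) := ⟨by norm_num⟩
  have r4 := key g h 97 (red 97 22 sq97) 4 ((red_Z _ _ _ _).trans zero97)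
    (fun i hi => by rw [red_Z]; exact ne97 i hi) (fun i => by rw [red_Zs]; exact ne'97 i)
  intro i
  fin_cases i
  · exact r0
  · exact r1
  · exact r2
  · exact r3
  · exact r4

/-! ### the eigenfunction -/

/-- The amplitudes `1 / sin (L i)`. -/
noncomputable def A (i : Fin 5) : ℝ := (1 + T i ^ 2) / (2 * T i)

/-- The eigenfunction on the edges. -/
noncomputable def U (i : Fin 5) (x : ℝ) : ℂ := ((A i * Real.sin x : ℝ) : ℂ)

lemma U_deriv (i : Fin 5) : deriv (U i) = fun x => ((A i * Real.cos x : ℝ) : ℂ) := by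
  funext x
  exact ((Real.hasDerivAt_sin x).const_mul (A i)).ofReal_comp.deriv

lemma U_deriv2 (i : Fin 5) : deriv (deriv (U i)) = fun x => ((A i * -Real.sin x : ℝ) : ℂ) := by
  rw [U_deriv]
  funext x
  exact ((Real.hasDerivAt_cos x).const_mul (A i)).ofReal_comp.deriv

lemma U_smooth (i : Fin 5) : ContDiff ℝ 2 (U i) :=
  Complex.ofRealCLM.contDiff.comp (contDiff_const.mul Real.contDiff_sin)

lemma U_end (i : Fin 5) : U i (L i) = 1 := by
  have h : A i * Real.sin (L i) = 1 := by
    have h1 : (1 : ℝ) + T i ^ 2 ≠ 0 := by positivity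
    have h2 := T_ne i
    rw [sin_L, A]
    field_simp
  rw [U, h]; simp

lemma sum_A : ∑ i, A i = 0 := by
  simp [Fin.sum_univ_five, A, T, X]
  norm_num

lemma sum_A_cos : ∑ i, A i * Real.cos (L i) = 0 := by
  simp only [cos_L]
  simp [Fin.sum_univ_five, A, T, X]
  norm_num

lemma G5_admissible : G5.Admissible := by
  refine ⟨⟨⟨(0 : Fin 2)⟩, ?_⟩, ⟨(0 : Fin 2), by simp [G5]⟩, ?_⟩
  · have h01 : Relation.EqvGen (fun a b : Fin 2 => ∃ e : Fin 5, (0 : Fin 2) = a ∧ (1 : Fin 2) = b)
        0 1 := Relation.EqvGen.rel _ _ ⟨0, rfl, rfl⟩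
    intro v w
    change Relation.EqvGen (fun a b : Fin 2 => ∃ e : Fin 5, (0 : Fin 2) = a ∧ (1 : Fin 2) = b) v w
    change Fin 2 at v
    change Fin 2 at w
    fin_cases v <;> fin_cases w
    · exact Relation.EqvGen.refl _
    · exact h01
    · exact h01.symm
    · exact Relation.EqvGen.refl _
  · intro v
    change Fin 2 at v
    fin_cases v
    · show (∑ e : Fin 5, ((if (0 : Fin 2) = 0 then 1 else 0) + (if (1 : Fin 2) = 0 then 1 else 0)))
        + 1 ≠ 2
      decide
    · show (∑ e : Fin 5, ((if (0 : Fin 2) = 1 then 1 else 0) + (if (1 : Fin 2) = 1 then 1 else 0)))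
        + 0 ≠ 2
      decide

lemma G5_eigenvalue : G5.IsEigenvalue L 1 := by
  refine ⟨U, fun _ _ _ => 0, ![0, 1], U_smooth, fun _ _ => contDiff_const, ?_, ?_, ?_, ?_, ?_, ?_,
    ?_⟩
  · intro e x _
    have h := congrFun (U_deriv2 e) x
    refine (congrArg Neg.neg h).trans ?_
    show -((A e * -Real.sin x : ℝ) : ℂ) = ((1 : ℝ) : ℂ) * ((A e * Real.sin x : ℝ) : ℂ)
    push_cast
    ring
  · intro v j x _
    simp
  · intro v j
    simp
  · intro e
    refine ⟨?_, ?_⟩
    · show U e 0 = 0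
      simp [U]
    · show U e (L e) = 1
      exact U_end e
  · intro v j
    change Fin 2 at v
    fin_cases v
    · rfl
    · exact Fin.elim0 j
  · intro v
    change Fin 2 at v
    have hs : ∀ v : Fin 2, ∑ j : Fin (G5.lead v), deriv (fun _ : ℝ => (0 : ℂ)) 0 = 0 := by
      intro v; simp
    fin_cases v
    · show (∑ e : Fin 5, ((if (0 : Fin 2) = 0 then deriv (U e) 0 else 0)
        - (if (1 : Fin 2) = 0 then deriv (U e) (L e) else 0)))
        + ∑ j : Fin (G5.lead (0 : Fin 2)), deriv (fun _ : ℝ => (0 : ℂ)) 0 = 0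
      rw [hs]
      simp only [U_deriv, if_true, Real.cos_zero, mul_one, add_zero]
      simp only [one_ne_zero, if_false, sub_zero]
      rw [← Complex.ofReal_sum, sum_A]
      simp
    · show (∑ e : Fin 5, ((if (0 : Fin 2) = 1 then deriv (U e) 0 else 0)
        - (if (1 : Fin 2) = 1 then deriv (U e) (L e) else 0)))
        + ∑ j : Fin (G5.lead (1 : Fin 2)), deriv (fun _ : ℝ => (0 : ℂ)) 0 = 0
      rw [hs]
      simp only [U_deriv, if_true, add_zero]
      simp only [zero_ne_one, if_false, zero_sub]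
      rw [Finset.sum_neg_distrib, ← Complex.ofReal_sum, sum_A_cos]
      simp
  · left
    refine ⟨(0 : Fin 5), L 0, ⟨(L_pos 0).le, le_rfl⟩, ?_⟩
    show U 0 (L 0) ≠ 0
    rw [U_end]
    exact one_ne_zero

/-- **Theorem** (negative answer to Q1). There are a loopless open quantum graph and edge lengths
that are linearly independent over `ℤ` for which the Kirchhoff Laplacian has an eigenvalue. -/
theorem result : ∃ (G : OpenGraph) (l : G.E → ℝ) (lam : ℝ), G.Admissible ∧ G.Loopless ∧
    (∀ e, 0 < l e) ∧ LinearIndependent ℤ l ∧ G.IsEigenvalue l lam :=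
  ⟨G5, L, 1, G5_admissible, fun _ => (zero_ne_one : (0 : Fin 2) ≠ 1), L_pos,
    L_linearIndependent, G5_eigenvalue⟩

end Pool.Agent.Results.MP_332ffb_mp.EmbeddedEigenvalue
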